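import Pool.Agent.Helper54.Chain.Cert
import Pool.Agent.Helper54.Chain.Lower
import Pool.Agent.Helper58.CC.Cert

set_option autoImplicit false

/-!
Sections of `{0, ±1, ±2}^n` by admissible hyperplanes whose coefficients form few progressions.

Let `a` be a real vector such that `x = 0` is the only `x` in `{-1, 0, 1}^n` with `a·x = 0`, and let
`r` be the number of entries which are not `±2` times an entry, that is, the number of maximal
progressions `b, ±2b, ±4b, …` into which the entries of `a` split.  Then every translate of the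
hyperplane contains at most `√7 ^ r * β ^ (n - r)` points of `{-2, …, 2}^n`, and already `r ≤ 2`
gives the order `β ^ n` on the hyperplane itself.

For every progression the points are grouped by the value `y` of its part of the sum.  The vectors
`y` of a fibre have disjoint boxes `y - [0, 2^l)`, and also disjoint boxes at the scale `2`; two
probability measures on the positions of these boxes, for every length `l`, bound the number of
representations of `y` by `√7 * β ^ (l - 1)` times the square root of the product of the two masses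
seen by `y`.
-/

namespace Pool.Agent.Results.MP_1ac531_co.ChainSections

open Finset

theorem ncard_eq_bottoms {n : ℕ} (a : Fin n → ℝ) :
    {i : Fin n | ∀ j, a i ≠ 2 * a j ∧ a i ≠ -2 * a j}.ncard =
      Pool.Agent.Helper54.Chain.bottoms a := by
  classical
  unfold Pool.Agent.Helper54.Chain.bottoms
  rw [Set.ncard_eq_toFinset_card']
  congr 1
  ext i
  simp

theorem result (β : ℝ) (hβ : IsGreatest {z : ℝ | z ^ 8 - 8 * z ^ 6 + 10 * z ^ 4 + 1 = 0} β) :
    (∀ (n r : ℕ) (a : Fin n → ℝ),
      (∀ x ∈ Fintype.piFinset (fun _ : Fin n => Icc (-1 : ℤ) 1),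
        ∑ i, a i * (x i : ℝ) = 0 → x = 0) →
      {i : Fin n | ∀ j, a i ≠ 2 * a j ∧ a i ≠ -2 * a j}.ncard = r →
      ∀ T : ℝ,
        (((Fintype.piFinset (fun _ : Fin n => Icc (-2 : ℤ) 2)).filter
          (fun x => ∑ i, a i * (x i : ℝ) = T)).card : ℝ) ≤ (√7) ^ r * β ^ (n - r)) ∧
    (∃ c : ℝ, 0 < c ∧ ∀ n : ℕ, 1 ≤ n → ∃ a : Fin n → ℝ,
      (∀ x ∈ Fintype.piFinset (fun _ : Fin n => Icc (-1 : ℤ) 1),
        ∑ i, a i * (x i : ℝ) = 0 → x = 0) ∧
      {i : Fin n | ∀ j, a i ≠ 2 * a j ∧ a i ≠ -2 * a j}.ncard ≤ 2 ∧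
      c * β ^ n ≤ (((Fintype.piFinset (fun _ : Fin n => Icc (-2 : ℤ) 2)).filter
          (fun x => ∑ i, a i * (x i : ℝ) = 0)).card : ℝ)) := by
  have h1 := Pool.Agent.Helper69.CH.root_ge'' hβ
  have hpos : 0 < β := by linarith
  constructor
  · intro n r a adm hr T
    have h2 := Pool.Agent.Helper54.Chain.result_cert β (√7 / β) hpos.le (by positivity)
      (Pool.Agent.Helper58.CC.cert_sqrt hβ) n a adm T
    rw [← ncard_eq_bottoms, hr] at h2
    have hrn : r ≤ n := by
      rw [← hr]
      calc {i : Fin n | ∀ j, a i ≠ 2 * a j ∧ a i ≠ -2 * a j}.ncard ≤ (Set.univ : Set (Fin n)).ncard :=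
            Set.ncard_le_ncard (Set.subset_univ _)
        _ = n := by rw [Set.ncard_univ, Nat.card_eq_fintype_card, Fintype.card_fin]
    refine h2.trans (le_of_eq ?_)
    obtain ⟨m, rfl⟩ : ∃ m, n = r + m := ⟨n - r, by omega⟩
    rw [Nat.add_sub_cancel_left, pow_add, div_pow]
    field_simp
  · obtain ⟨c, hc, h⟩ := Pool.Agent.Helper54.Chain.lower hβ
    refine ⟨c, hc, fun n hn => ?_⟩
    obtain ⟨a, ha1, ha2, ha3⟩ := h n hn
    exact ⟨a, ha1, by rw [ncard_eq_bottoms]; exact ha2, ha3⟩

end Pool.Agent.Results.MP_1ac531_co.ChainSections
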