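import Pool.Agent.Helper77.SI.Layer2
import Pool.Agent.Helper23.Hyper.Perron

/-!
# MP_1ac531_co: the maximum for layered coefficient vectors

`Layered l`: the smallest class of finite lists of reals, closed under reordering, that contains
the superincreasing lists and the triangular integer lists and is closed under two ways of putting
new entries on top of a member (constructors `glue` and `two`).
-/

open Filter Topology

namespace Pool.Agent.Results.MP_1ac531_co.LayeredSections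

open Pool.Agent.Helper77.SI Pool.Agent.Helper23.Hyper

/-- For layered real vectors the maximal number of points of `{0, ±1, ±2}^n` on a hyperplane
`a · x = T` is exactly `d n ∼ κ β^n`, and the maximum over the hyperplanes `a · x = 0` with layered
`a` (all of them admissible) has exact order `β^n`. -/
theorem result : ∃ d : ℕ → ℕ, (d 1 = 1 ∧ d 2 = 3 ∧ d 3 = 8 ∧ d 4 = 20 ∧
      ∀ n, 1 ≤ n → d (n + 4) + 2 * d (n + 1) = 2 * d (n + 3) + 2 * d (n + 2) + d n) ∧
    (∀ (n k : ℕ) (a : Fin n → ℝ) (e : Fin k ↪ Fin n) (T : ℝ), 1 ≤ k →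
      Layered (List.ofFn (a ∘ e)) → secR a T ≤ 5 ^ (n - k) * d k) ∧
    (∀ (n : ℕ) (a : Fin n → ℝ), Layered (List.ofFn a) → AdmissibleR a) ∧
    (∀ n : ℕ, 1 ≤ n → Layered (List.ofFn (fun i : Fin n => (2 : ℝ) ^ (i : ℕ))) ∧
      ∃ T : ℝ, secR (fun i : Fin n => (2 : ℝ) ^ (i : ℕ)) T = d n) ∧
    ∀ β : ℝ, IsGreatest {z : ℝ | z ^ 8 - 8 * z ^ 6 + 10 * z ^ 4 + 1 = 0} β →
      (∃ κ : ℝ, 0 < κ ∧ Tendsto (fun n => (d n : ℝ) / β ^ n) atTop (𝓝 κ)) ∧
      (∃ c C : ℝ, 0 < c ∧ (∀ (n : ℕ) (a : Fin n → ℝ), Layered (List.ofFn a) →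
          (secR a 0 : ℝ) ≤ C * β ^ n) ∧
        ∀ n : ℕ, 1 ≤ n → ∃ a : Fin n → ℤ, Layered (List.ofFn (fun i => (a i : ℝ))) ∧
          c * β ^ n ≤ (secR (fun i => (a i : ℝ)) 0 : ℝ)) := by
  refine ⟨Q, ⟨by decide, by decide, by decide, by decide, fun n _ => Q_rec n⟩,
    fun n k a e T hk h => Layered.secR_le a e T hk h, fun n a h => h.admissible,
    fun n _ => ⟨Layered.of_superincreasing (superincreasing_pows n), secR_pows n⟩, ?_⟩
  intro β hβ
  have h1 := root_ge hβ
  have h2 := quartic_of_octic h1 hβ.1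
  obtain ⟨κ, hκ, ht, c, hc, hP⟩ := perron h1 h2
  have hβ0 : 0 < β := by linarith
  have hβ1 : 1 ≤ β := by linarith
  refine ⟨⟨κ, hκ, ht⟩, ?_⟩
  obtain ⟨C, hC⟩ := ht.bddAbove_range
  refine ⟨min (2 * c / β ^ 3) (1 / β ^ 3), max C 1, lt_min (by positivity) (by positivity), ?_, ?_⟩
  · intro n a ha
    rcases Nat.eq_zero_or_pos n with hn | hn
    · subst hn
      have h3 : secR a 0 ≤ 1 := by
        rw [secR_eq]
        simp [cntR]
      have h4 : (secR a 0 : ℝ) ≤ 1 := by exact_mod_cast h3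
      rw [pow_zero, mul_one]
      exact h4.trans (le_max_right _ _)
    · have h3 := Layered.secR_le a (Function.Embedding.refl (Fin n)) 0 hn ha
      rw [Nat.sub_self, pow_zero, one_mul] at h3
      have h4 : (secR a 0 : ℝ) ≤ Q n := by exact_mod_cast h3
      have h5 : (Q n : ℝ) / β ^ n ≤ C := hC ⟨n, rfl⟩
      have hp : 0 < β ^ n := pow_pos hβ0 n
      rw [div_le_iff₀ hp] at h5
      exact h4.trans (h5.trans (mul_le_mul_of_nonneg_right (le_max_left _ _) hp.le))
  · intro n hn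
    have hp : 0 < β ^ n := pow_pos hβ0 n
    rcases Nat.lt_or_ge n 4 with hm | hm
    · refine ⟨fun i => 2 ^ (i : ℕ), ?_, ?_⟩
      · have h3 := Layered.of_superincreasing (superincreasing_pows n)
        simpa using h3
      · have h3 := one_le_secR_zero (fun i : Fin n => (((2 : ℤ) ^ (i : ℕ) : ℤ) : ℝ))
        have h4 : (1 : ℝ) ≤ secR (fun i : Fin n => (((2 : ℤ) ^ (i : ℕ) : ℤ) : ℝ)) 0 := by
          exact_mod_cast h3
        refine le_trans ?_ h4
        have h5 : β ^ n ≤ β ^ 3 := pow_le_pow_right₀ hβ1 (by omega)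
        calc min (2 * c / β ^ 3) (1 / β ^ 3) * β ^ n ≤ 1 / β ^ 3 * β ^ n :=
              mul_le_mul_of_nonneg_right (min_le_right _ _) hp.le
          _ ≤ 1 / β ^ 3 * β ^ 3 := mul_le_mul_of_nonneg_left h5 (by positivity)
          _ = 1 := by field_simp
    · obtain ⟨m, rfl⟩ : ∃ m, n = m + 1 + 3 := ⟨n - 4, by omega⟩
      obtain ⟨a, ha⟩ := ext_eq_cast (m + 1)
      refine ⟨a, ?_, ?_⟩
      · rw [ha]
        exact Layered.of_superincreasing (superincreasing_ext (m + 1) (by omega))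
      · rw [ha]
        have h3 := secR_ext (m + 1)
        have h4 : (2 : ℝ) * Q (m + 1) ≤ secR (ext (m + 1)) 0 := by exact_mod_cast h3
        refine le_trans ?_ h4
        have h5 := ineqs m
        have h6 : (P (m + 1) : ℝ) ≤ Q (m + 1) := by exact_mod_cast h5.1.trans h5.2.1
        calc min (2 * c / β ^ 3) (1 / β ^ 3) * β ^ (m + 1 + 3)
            ≤ 2 * c / β ^ 3 * β ^ (m + 1 + 3) :=
              mul_le_mul_of_nonneg_right (min_le_left _ _) hp.le
          _ = 2 * (c * β ^ (m + 1)) := by rw [pow_add β (m + 1) 3]; field_simp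
          _ ≤ 2 * Q (m + 1) := by linarith [hP m]

end Pool.Agent.Results.MP_1ac531_co.LayeredSections
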