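import Pool.Agent.Helper19.Blocks.Final
import Pool.Agent.Helper19.Blocks.Sharp

/-!
# MP_1ac531_co: dense 2-adic blocks with a perturbation of low complexity
-/

open Finset

namespace Pool.Agent.Results.MP_1ac531_co.PerturbedBlocks

/-- Upper bound for real vectors made of blocks `b_j D_j` (integers with distinct 2-adic
valuations) and a perturbation by small multiples of few reals; and admissible vectors without
any doubling which have at least `c β^n / n` points on `a · x = 0`. -/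
theorem result (β : ℝ) (hβ : IsGreatest {z : ℝ | z ^ 8 - 8 * z ^ 6 + 10 * z ^ 4 + 1 = 0} β) :
    (∀ (n J M : ℕ) (a : Fin n → ℝ) (c : Fin n → Fin J) (b : Fin J → ℝ) (D : Fin n → ℤ)
      (g : Fin M → ℝ) (u : Fin n → Fin M → ℤ),
      (∀ x ∈ Fintype.piFinset (fun _ : Fin n => Icc (-1 : ℤ) 1),
        ∑ i, a i * (x i : ℝ) = 0 → x = 0) →
      (∀ k, D k ≠ 0) → (∀ k, a k = b (c k) * D k + ∑ m, (u k m : ℝ) * g m) →
      (∀ k k', c k = c k' → padicValInt 2 (D k) = padicValInt 2 (D k') → k = k') →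
      ∀ T : ℝ, (((Fintype.piFinset (fun _ : Fin n => Icc (-2 : ℤ) 2)).filter
          (fun x => ∑ i, a i * (x i : ℝ) = T)).card : ℝ) ≤
        β ^ n * (∏ j ∈ univ.image c, (9 / 2 * (∑ k with c k = j, |(D k : ℝ)|) /
          2 ^ (univ.filter (fun k => c k = j)).card)) * ∏ m, (5 * ∑ k, |(u k m : ℝ)| + 1)) ∧
    ∃ κ : ℝ, 0 < κ ∧ ∀ n : ℕ, 1 ≤ n → ∃ a : Fin n → ℝ,
      (∀ x ∈ Fintype.piFinset (fun _ : Fin n => Icc (-1 : ℤ) 1),
        ∑ i, a i * (x i : ℝ) = 0 → x = 0) ∧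
      (∀ i j, a i ≠ 2 * a j ∧ a i ≠ -(2 * a j)) ∧
      κ * β ^ n / n ≤ (((Fintype.piFinset (fun _ : Fin n => Icc (-2 : ℤ) 2)).filter
        (fun x => ∑ i, a i * (x i : ℝ) = 0)).card : ℝ) := by
  constructor
  · intro n J M a c b D g u hadm h0 ha hv T
    exact Pool.Agent.Helper19.Blocks.dense_blocks_perturbed a hadm c b D g u h0 ha hv hβ T
  · have h5 := Pool.Agent.Helper23.Hyper.root_ge hβ
    exact Pool.Agent.Helper19.Blocks.no_double_lower h5
      (Pool.Agent.Helper23.Hyper.quartic_of_octic h5 hβ.1)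

end Pool.Agent.Results.MP_1ac531_co.PerturbedBlocks
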