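import Pool.Agent.Helper36.Hyper.Mean
import Pool.Agent.Helper36.Hyper.Cert

set_option autoImplicit false

/-!
An upper bound for hyperplane sections of `{0, ±1, ±2}^n`.

For an admissible `a` put `D(θ) = 1 + 2 cos θ + 2 cos 2θ`.  The number of `x` with `a·x = T` is the
mean value over `t` of `cos (T t) ∏ D(a_i t)`, and for `c = 1, 2, 4` admissibility says that the
Riesz product `∏ (1 + r cos (c a_i t))` has mean value `1`.  The pointwise inequality
`|D|^17 ≤ 2.611^17 R₁^9 R₂^6 R₄^2`, with `R_c = 1 + r_c cos cθ`, and the weighted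
arithmetic-geometric mean inequality finish the proof.
-/

namespace Pool.Agent.Results.MP_1ac531_co.SectionUpperBound

open Finset Pool.Agent.Helper36.Hyper

/-- Coefficients of the Riesz factors. -/
noncomputable def coef (r : ℝ) (j : ℤ) : ℝ := if j = 0 then 1 else r / 2

theorem riesz_hf (r θ : ℝ) : ((1 + r * Real.cos θ : ℝ) : ℂ) =
    ∑ j ∈ Icc (-1 : ℤ) 1, (coef r j : ℂ) * Complex.exp ((j * θ : ℝ) * Complex.I) := by
  have h : Icc (-1 : ℤ) 1 = {-1, 0, 1} := by decide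
  rw [h, sum_insert (by decide), sum_insert (by decide), sum_singleton]
  simp only [coef]
  norm_num
  rw [Complex.cos]
  ring_nf

theorem dig_hf (θ : ℝ) : ((1 + 2 * Real.cos θ + 2 * Real.cos (2 * θ) : ℝ) : ℂ) =
    ∑ j ∈ Icc (-2 : ℤ) 2, ((1 : ℝ) : ℂ) * Complex.exp ((j * θ : ℝ) * Complex.I) := by
  have h : Icc (-2 : ℤ) 2 = {-2, -1, 0, 1, 2} := by decide
  rw [h, sum_insert (by decide), sum_insert (by decide), sum_insert (by decide),
    sum_insert (by decide), sum_singleton]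
  push_cast
  rw [Complex.cos, Complex.cos]
  norm_num
  ring_nf

/-- The Riesz products have mean value one. -/
theorem riesz_mean {n : ℕ} (a : Fin n → ℝ)
    (hadm : ∀ x ∈ Fintype.piFinset (fun _ : Fin n => Icc (-1 : ℤ) 1),
      ∑ i, a i * (x i : ℝ) = 0 → x = 0) (c : ℝ) (hc : c ≠ 0) (r : ℝ) :
    MeanIs (fun t => ∏ i, (1 + r * Real.cos (c * (a i * t)))) 1 := by
  classical
  have h1 := expand (Icc (-1 : ℤ) 1) (coef r) (fun θ => 1 + r * Real.cos θ) (riesz_hf r)
    (fun i => c * a i) 0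
  have h2 : (fun t => ∏ i, (1 + r * Real.cos (c * (a i * t)))) = fun t =>
      ∑ x ∈ Fintype.piFinset (fun _ : Fin n => Icc (-1 : ℤ) 1),
        (∏ i, coef r (x i)) * Real.cos ((∑ i, c * a i * (x i : ℝ) - 0) * t) := by
    funext t
    rw [← h1 t, zero_mul, Real.cos_zero, one_mul]
    apply prod_congr rfl
    intro i _
    rw [mul_assoc]
  rw [h2]
  have h3 := MeanIs.sum (Fintype.piFinset (fun _ : Fin n => Icc (-1 : ℤ) 1))
    (fun x t => (∏ i, coef r (x i)) * Real.cos ((∑ i, c * a i * (x i : ℝ) - 0) * t))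
    (fun x => (∏ i, coef r (x i)) * (if (∑ i, c * a i * (x i : ℝ) - 0) = 0 then 1 else 0))
    (fun x _ => (MeanIs.cos _).const_mul _)
  have h4 : ∑ x ∈ Fintype.piFinset (fun _ : Fin n => Icc (-1 : ℤ) 1),
      (∏ i, coef r (x i)) * (if (∑ i, c * a i * (x i : ℝ) - 0) = 0 then (1 : ℝ) else 0) = 1 := by
    rw [sum_eq_single (0 : Fin n → ℤ)]
    · simp [coef]
    · intro x hx hx0
      rw [if_neg, mul_zero]
      intro h5
      apply hx0
      apply hadm x hx
      rw [sub_zero] at h5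
      have h6 : c * ∑ i, a i * (x i : ℝ) = 0 := by
        rw [mul_sum, ← h5]
        exact sum_congr rfl fun i _ => by ring
      exact (mul_eq_zero.mp h6).resolve_left hc
    · intro h
      exact absurd (Fintype.mem_piFinset.mpr fun i => by simp) h
  rwa [h4] at h3

/-- The number of points as a mean value. -/
theorem count_mean {n : ℕ} (a : Fin n → ℝ) (T : ℝ) :
    MeanIs (fun t => Real.cos (T * t) *
      ∏ i, (1 + 2 * Real.cos (a i * t) + 2 * Real.cos (2 * (a i * t))))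
      (((Fintype.piFinset (fun _ : Fin n => Icc (-2 : ℤ) 2)).filter
        (fun x => ∑ i, a i * (x i : ℝ) = T)).card : ℝ) := by
  classical
  have h1 := expand (Icc (-2 : ℤ) 2) (fun _ => 1)
    (fun θ => 1 + 2 * Real.cos θ + 2 * Real.cos (2 * θ)) dig_hf a T
  have h2 : (fun t => Real.cos (T * t) *
      ∏ i, (1 + 2 * Real.cos (a i * t) + 2 * Real.cos (2 * (a i * t)))) = fun t =>
      ∑ x ∈ Fintype.piFinset (fun _ : Fin n => Icc (-2 : ℤ) 2),
        Real.cos ((∑ i, a i * (x i : ℝ) - T) * t) := by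
    funext t
    rw [h1 t]
    simp
  rw [h2]
  have h3 := MeanIs.sum (Fintype.piFinset (fun _ : Fin n => Icc (-2 : ℤ) 2))
    (fun x t => Real.cos ((∑ i, a i * (x i : ℝ) - T) * t))
    (fun x => if (∑ i, a i * (x i : ℝ) - T) = 0 then 1 else 0)
    (fun x _ => MeanIs.cos _)
  have h4 : ∑ x ∈ Fintype.piFinset (fun _ : Fin n => Icc (-2 : ℤ) 2),
      (if (∑ i, a i * (x i : ℝ) - T) = 0 then (1 : ℝ) else 0) =
      (((Fintype.piFinset (fun _ : Fin n => Icc (-2 : ℤ) 2)).filter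
        (fun x => ∑ i, a i * (x i : ℝ) = T)).card : ℝ) := by
    simp only [sub_eq_zero]
    rw [sum_boole]
  rwa [h4] at h3

/-- The single-letter inequality in terms of cosines. -/
theorem letter (θ : ℝ) : |1 + 2 * Real.cos θ + 2 * Real.cos (2 * θ)| ^ 17 ≤
    (2.611 : ℝ) ^ 17 * (1 + 0.9087 * Real.cos (1 * θ)) ^ 9 *
      (1 + 0.9232 * Real.cos (2 * θ)) ^ 6 * (1 + 0.9188 * Real.cos (4 * θ)) ^ 2 := by
  have h1 := cert (Real.cos θ) (Real.neg_one_le_cos θ) (Real.cos_le_one θ)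
  have h2 : Real.cos (2 * θ) = 2 * Real.cos θ ^ 2 - 1 := Real.cos_two_mul θ
  have h4 : Real.cos (4 * θ) = 8 * Real.cos θ ^ 4 - 8 * Real.cos θ ^ 2 + 1 := by
    have : (4 : ℝ) * θ = 2 * (2 * θ) := by ring
    rw [this, Real.cos_two_mul, h2]
    ring
  rw [h2, h4, one_mul]
  have h5 : 1 + 2 * Real.cos θ + 2 * (2 * Real.cos θ ^ 2 - 1) =
      4 * Real.cos θ ^ 2 + 2 * Real.cos θ - 1 := by ring
  rw [h5]
  exact h1

/-- The weighted arithmetic-geometric mean inequality in polynomial form. -/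
theorem amgm (A B C D ρ : ℝ) (hA : 0 ≤ A) (hB : 0 ≤ B) (hC : 0 ≤ C) (hρ : 0 ≤ ρ)
    (h : D ^ 17 ≤ ρ ^ 17 * A ^ 9 * B ^ 6 * C ^ 2) :
    D ≤ ρ * (9 / 17 * A + 6 / 17 * B + 2 / 17 * C) := by
  have h1 := Real.geom_mean_le_arith_mean3_weighted (w₁ := 9 / 17) (w₂ := 6 / 17) (w₃ := 2 / 17)
    (by norm_num) (by norm_num) (by norm_num) hA hB hC (by norm_num)
  set G := A ^ (9 / 17 : ℝ) * B ^ (6 / 17 : ℝ) * C ^ (2 / 17 : ℝ) with hG
  have hG0 : 0 ≤ G := by positivity
  have h2 : G ^ 17 = A ^ 9 * B ^ 6 * C ^ 2 := by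
    rw [hG, mul_pow, mul_pow, ← Real.rpow_natCast (A ^ (9 / 17 : ℝ)) 17,
      ← Real.rpow_natCast (B ^ (6 / 17 : ℝ)) 17, ← Real.rpow_natCast (C ^ (2 / 17 : ℝ)) 17,
      ← Real.rpow_mul hA, ← Real.rpow_mul hB, ← Real.rpow_mul hC,
      ← Real.rpow_natCast A 9, ← Real.rpow_natCast B 6, ← Real.rpow_natCast C 2]
    norm_num
  have h3 : D ^ 17 ≤ (ρ * G) ^ 17 := by
    rw [mul_pow, h2]
    linarith
  have h4 : D ≤ ρ * G := by
    by_contra hcon
    push Not at hcon
    have := pow_lt_pow_left₀ hcon (by positivity) (show (17 : ℕ) ≠ 0 by norm_num)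
    linarith
  exact h4.trans (mul_le_mul_of_nonneg_left h1 hρ)

/-- **Upper bound.** If `{-1, 0, 1}^n` meets the hyperplane `a·x = 0` only in the origin, then
every parallel hyperplane `a·x = T` contains at most `2.611^n` points of `{-2, …, 2}^n`. -/
theorem result (n : ℕ) (a : Fin n → ℝ)
    (hadm : ∀ x ∈ Fintype.piFinset (fun _ : Fin n => Finset.Icc (-1 : ℤ) 1),
      ∑ i, a i * (x i : ℝ) = 0 → x = 0) (T : ℝ) :
    (((Fintype.piFinset (fun _ : Fin n => Finset.Icc (-2 : ℤ) 2)).filter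
      (fun x => ∑ i, a i * (x i : ℝ) = T)).card : ℝ) ≤ (2.611 : ℝ) ^ n := by
  have m1 := (riesz_mean a hadm 1 one_ne_zero 0.9087).const_mul (9 / 17)
  have m2 := (riesz_mean a hadm 2 two_ne_zero 0.9232).const_mul (6 / 17)
  have m4 := (riesz_mean a hadm 4 (by norm_num) 0.9188).const_mul (2 / 17)
  have m := (((m1.add m2).add m4).const_mul ((2.611 : ℝ) ^ n)).add
    ((count_mean a T).const_mul (-1))
  have h := m.nonneg ?_
  · linarith
  intro t
  have hpos : ∀ (r c : ℝ), 0 ≤ r → r ≤ 1 → ∀ i, 0 ≤ 1 + r * Real.cos (c * (a i * t)) := by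
    intro r c hr hr1 i
    nlinarith [Real.neg_one_le_cos (c * (a i * t)), Real.cos_le_one (c * (a i * t))]
  have hD : |Real.cos (T * t) *
      ∏ i, (1 + 2 * Real.cos (a i * t) + 2 * Real.cos (2 * (a i * t)))| ≤
      ∏ i, |1 + 2 * Real.cos (a i * t) + 2 * Real.cos (2 * (a i * t))| := by
    rw [abs_mul, abs_prod]
    have h1 := Real.abs_cos_le_one (T * t)
    have h2 : 0 ≤ ∏ i, |1 + 2 * Real.cos (a i * t) + 2 * Real.cos (2 * (a i * t))| :=
      prod_nonneg fun i _ => abs_nonneg _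
    nlinarith
  have key : ∏ i, |1 + 2 * Real.cos (a i * t) + 2 * Real.cos (2 * (a i * t))| ≤
      (2.611 : ℝ) ^ n * (9 / 17 * ∏ i, (1 + 0.9087 * Real.cos (1 * (a i * t))) +
        6 / 17 * ∏ i, (1 + 0.9232 * Real.cos (2 * (a i * t))) +
        2 / 17 * ∏ i, (1 + 0.9188 * Real.cos (4 * (a i * t)))) := by
    apply amgm _ _ _ _ _ (prod_nonneg fun i _ => hpos _ _ (by norm_num) (by norm_num) i)
      (prod_nonneg fun i _ => hpos _ _ (by norm_num) (by norm_num) i)
      (prod_nonneg fun i _ => hpos _ _ (by norm_num) (by norm_num) i) (by positivity)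
    rw [← prod_pow, ← prod_pow, ← prod_pow, ← prod_pow, ← pow_mul, mul_comm n 17, pow_mul]
    have hconst : ((2.611 : ℝ) ^ 17) ^ n = ∏ _i : Fin n, (2.611 : ℝ) ^ 17 := by simp
    rw [hconst, ← prod_mul_distrib, ← prod_mul_distrib, ← prod_mul_distrib]
    apply prod_le_prod
    · intro i _
      positivity
    · intro i _
      exact letter (a i * t)
  have h1 := (le_abs_self _).trans (hD.trans key)
  linarith

end Pool.Agent.Results.MP_1ac531_co.SectionUpperBound
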